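import Pool.Agent.N796.OpenMulC

set_option autoImplicit false

open Metric
open scoped Pointwise

namespace Pool.Agent.Results.MP_64150f_an.UniformlyOpen

open Pool.Agent.N796.OpenMul

/-- For every compact Hausdorff space `X` of covering dimension at most one, every `ε > 0` and all
`a, b : C(X, ℂ)` (no bound on the norms is needed), the ball of radius `ε ^ 2 / 256` about `a * b`
is contained in the product of the balls of radius `ε` about `a` and about `b`.  In particular
multiplication in `C(X, ℂ)` is uniformly open, hence open. -/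
theorem result {X : Type*} [TopologicalSpace X] [CompactSpace X] [T2Space X]
    (hdim : CoveringDimLE X 1) (ε : ℝ) (hε : 0 < ε) (a b : C(X, ℂ)) :
    ball (a * b) (ε ^ 2 / 256) ⊆ ball a ε * ball b ε := by
  intro h hh
  have hη : 0 < ε / 4 := by positivity
  have hpt : ∀ x, ‖h x - a x * b x‖ ≤ (ε / 4) ^ 2 / 16 := by
    intro x
    have h1 : ‖h - a * b‖ < ε ^ 2 / 256 := by
      rw [mem_ball, dist_eq_norm] at hh
      exact hh
    have h2 : ‖(h - a * b) x‖ ≤ ‖h - a * b‖ := ContinuousMap.norm_coe_le_norm _ x
    have h3 : (h - a * b) x = h x - a x * b x := rfl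
    rw [h3] at h2
    have h4 : (ε / 4) ^ 2 / 16 = ε ^ 2 / 256 := by ring
    rw [h4]
    linarith
  obtain ⟨a', b', hab, ha, hb⟩ := exists_factorization hdim a b h hη hpt
  have key : ∀ c c' : C(X, ℂ), (∀ x, ‖c' x - c x‖ ≤ 3 * (ε / 4)) → c' ∈ ball c ε := by
    intro c c' hc
    rw [mem_ball, dist_eq_norm]
    have : ‖c' - c‖ ≤ 3 * (ε / 4) := by
      rw [ContinuousMap.norm_le _ (by positivity)]
      intro x
      exact hc x
    linarith
  refine Set.mem_mul.2 ⟨a', key a a' ha, b', key b b' hb, ?_⟩
  ext x
  exact hab x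

end Pool.Agent.Results.MP_64150f_an.UniformlyOpen
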